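import Pool.Agent.TIndX.Chk

/-!
# No 10-independent triples modulo n: 222 ≤ n ≤ 243
-/

set_option autoImplicit false

namespace Pool.Agent.TIndX

theorem ten_a : all (fun i => negN 10 (222 + i)) 22 = true := by decide +kernel

end Pool.Agent.TIndX
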