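import Pool.Agent.TIndX.Pos
import Pool.Agent.TIndX.TenA
import Pool.Agent.TIndX.TenB
import Pool.Agent.TInd.Asym

/-!
# The set `N 10`
-/

set_option autoImplicit false

namespace Pool.Agent.TIndX

open Pool.Agent.TInd

theorem N_ten : N 10 = {n : ℕ | 61 ≤ n ∧ n ≤ 259} ∪ {262, 265} := by
  ext n
  simp only [Set.mem_union, Set.mem_setOf_eq, Set.mem_insert_iff, Set.mem_singleton_iff]
  constructor
  · intro hn
    have h1 : 61 ≤ n := N_ge (t := 10) (by norm_num) (by decide) hn
    by_contra hne
    push Not at hne
    obtain ⟨h2, h3, h4⟩ := hne
    have h2' := h2 h1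
    rcases Nat.lt_or_ge 270 n with h5 | h5
    · exact not_mem_N_of_good (by norm_num) (good_large (M := 271) (t := 10) (a := 19) (b := 26)
        (c := 27) (by norm_num) (by norm_num) (by norm_num) h5 (by decide +kernel)) hn
    · interval_cases n
      · exact not_mem_N_of_good (by norm_num)
          (good_of_posQ (n := 260) (t := 10) (a := 18) (b := 20) (c := 33) (by decide +kernel)) hn
      · exact not_mem_N_of_good (by norm_num)
          (good_of_posQ (n := 261) (t := 10) (a := 8) (b := 27) (c := 34) (by decide +kernel)) hn
      · exact h3 rfl
      · exact not_mem_N_of_good (by norm_num)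
          (good_of_posQ (n := 263) (t := 10) (a := 21) (b := 22) (c := 30) (by decide +kernel)) hn
      · exact not_mem_N_of_good (by norm_num)
          (good_of_posQ (n := 264) (t := 10) (a := 11) (b := 19) (c := 40) (by decide +kernel)) hn
      · exact h4 rfl
      · exact not_mem_N_of_good (by norm_num)
          (good_of_posQ (n := 266) (t := 10) (a := 16) (b := 27) (c := 29) (by decide +kernel)) hn
      · exact not_mem_N_of_good (by norm_num)
          (good_of_posQ (n := 267) (t := 10) (a := 6) (b := 25) (c := 35) (by decide +kernel)) hn
      · exact not_mem_N_of_good (by norm_num)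
          (good_of_posQ (n := 268) (t := 10) (a := 16) (b := 27) (c := 29) (by decide +kernel)) hn
      · exact not_mem_N_of_good (by norm_num)
          (good_of_posQ (n := 269) (t := 10) (a := 21) (b := 22) (c := 30) (by decide +kernel)) hn
      · exact not_mem_N_of_good (by norm_num)
          (good_of_posQ (n := 270) (t := 10) (a := 16) (b := 26) (c := 33) (by decide +kernel)) hn
  · rintro (⟨h1, h2⟩ | rfl | rfl)
    · rcases Nat.lt_or_ge n 222 with h3 | h3
      · refine mem_N_low (by norm_num) (by decide) h1 ?_
        have h4 : (n : ℝ) ≤ 221 := by exact_mod_cast (by omega : n ≤ 221)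
        have := le_octDet
        norm_num
        linarith
      · refine mem_N_of_negN (k := 5) (by norm_num) (by omega) ?_
        rcases Nat.lt_or_ge n 244 with h4 | h4
        · have := all_spec ten_a (n - 222) (by omega)
          rwa [show 222 + (n - 222) = n by omega] at this
        · have := all_spec ten_b (n - 244) (by omega)
          rwa [show 244 + (n - 244) = n by omega] at this
    · exact mem_N_of_negN (k := 5) (by norm_num) (by norm_num) ten_262
    · exact mem_N_of_negN (k := 5) (by norm_num) (by norm_num) ten_265

end Pool.Agent.TIndX
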