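import Pool.Agent.TIndX.Chk

/-!
# No 12-independent triples modulo n: 367 ≤ n ≤ 382
-/

set_option autoImplicit false

namespace Pool.Agent.TIndX

theorem tw_367 : negN 12 367 = true := by decide +kernel

theorem tw_368 : negN 12 368 = true := by decide +kernel

theorem tw_369 : negN 12 369 = true := by decide +kernel

theorem tw_370 : negN 12 370 = true := by decide +kernel

theorem tw_371 : negN 12 371 = true := by decide +kernel

theorem tw_372 : negN 12 372 = true := by decide +kernel

theorem tw_373 : negN 12 373 = true := by decide +kernel

theorem tw_374 : negN 12 374 = true := by decide +kernel

theorem tw_375 : negN 12 375 = true := by decide +kernel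

theorem tw_376 : negN 12 376 = true := by decide +kernel

theorem tw_377 : negN 12 377 = true := by decide +kernel

theorem tw_378 : negN 12 378 = true := by decide +kernel

theorem tw_379 : negN 12 379 = true := by decide +kernel

theorem tw_380 : negN 12 380 = true := by decide +kernel

theorem tw_381 : negN 12 381 = true := by decide +kernel

theorem tw_382 : negN 12 382 = true := by decide +kernel

end Pool.Agent.TIndX
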