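import Pool.Agent.TIndX.Chk

/-!
# No 12-independent triples modulo n: 383 ≤ n ≤ 396
-/

set_option autoImplicit false

namespace Pool.Agent.TIndX

theorem tw_383 : negN 12 383 = true := by decide +kernel

theorem tw_384 : negN 12 384 = true := by decide +kernel

theorem tw_385 : negN 12 385 = true := by decide +kernel

theorem tw_386 : negN 12 386 = true := by decide +kernel

theorem tw_387 : negN 12 387 = true := by decide +kernel

theorem tw_388 : negN 12 388 = true := by decide +kernel

theorem tw_389 : negN 12 389 = true := by decide +kernel

theorem tw_390 : negN 12 390 = true := by decide +kernel

theorem tw_391 : negN 12 391 = true := by decide +kernel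

theorem tw_392 : negN 12 392 = true := by decide +kernel

theorem tw_393 : negN 12 393 = true := by decide +kernel

theorem tw_394 : negN 12 394 = true := by decide +kernel

theorem tw_395 : negN 12 395 = true := by decide +kernel

theorem tw_396 : negN 12 396 = true := by decide +kernel

end Pool.Agent.TIndX
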