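import Pool.Agent.TIndX.Chk

/-!
# No 12-independent triples modulo n: 397 ≤ n ≤ 409
-/

set_option autoImplicit false

namespace Pool.Agent.TIndX

theorem tw_397 : negN 12 397 = true := by decide +kernel

theorem tw_398 : negN 12 398 = true := by decide +kernel

theorem tw_399 : negN 12 399 = true := by decide +kernel

theorem tw_400 : negN 12 400 = true := by decide +kernel

theorem tw_401 : negN 12 401 = true := by decide +kernel

theorem tw_402 : negN 12 402 = true := by decide +kernel

theorem tw_403 : negN 12 403 = true := by decide +kernel

theorem tw_404 : negN 12 404 = true := by decide +kernel

theorem tw_405 : negN 12 405 = true := by decide +kernel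

theorem tw_406 : negN 12 406 = true := by decide +kernel

theorem tw_407 : negN 12 407 = true := by decide +kernel

theorem tw_408 : negN 12 408 = true := by decide +kernel

theorem tw_409 : negN 12 409 = true := by decide +kernel

end Pool.Agent.TIndX
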