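import Pool.Agent.TIndX.Chk

/-!
# No 12-independent triples modulo n: 410 ≤ n ≤ 420, n = 423, 424, 425, 428, 432
-/

set_option autoImplicit false

namespace Pool.Agent.TIndX

theorem tw_410 : negN 12 410 = true := by decide +kernel

theorem tw_411 : negN 12 411 = true := by decide +kernel

theorem tw_412 : negN 12 412 = true := by decide +kernel

theorem tw_413 : negN 12 413 = true := by decide +kernel

theorem tw_414 : negN 12 414 = true := by decide +kernel

theorem tw_415 : negN 12 415 = true := by decide +kernel

theorem tw_416 : negN 12 416 = true := by decide +kernel

theorem tw_417 : negN 12 417 = true := by decide +kernel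

theorem tw_418 : negN 12 418 = true := by decide +kernel

theorem tw_419 : negN 12 419 = true := by decide +kernel

theorem tw_420 : negN 12 420 = true := by decide +kernel

theorem tw_423 : negN 12 423 = true := by decide +kernel

theorem tw_424 : negN 12 424 = true := by decide +kernel

theorem tw_425 : negN 12 425 = true := by decide +kernel

theorem tw_428 : negN 12 428 = true := by decide +kernel

theorem tw_432 : negN 12 432 = true := by decide +kernel

end Pool.Agent.TIndX
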