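import Pool.Agent.TIndX.Pos
import Pool.Agent.TIndX.TwA
import Pool.Agent.TIndX.TwB
import Pool.Agent.TIndX.TwC
import Pool.Agent.TIndX.TwD
import Pool.Agent.TInd.Asym

/-!
# The set `N 12`
-/

set_option autoImplicit false

namespace Pool.Agent.TIndX

open Pool.Agent.TInd

theorem N_twelve : N 12 = {n : ℕ | 85 ≤ n ∧ n ≤ 420} ∪ {423, 424, 425, 428, 432} := by
  ext n
  constructor
  · intro hn
    have h1 : 85 ≤ n := N_ge (t := 12) (by norm_num) (by decide) hn
    by_contra hne
    have h2 : 420 < n := by
      by_contra hlt
      exact hne (Or.inl ⟨h1, by omega⟩)
    have h3 : n ≠ 423 := fun e => hne (Or.inr (by rw [e]; simp))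
    have h4 : n ≠ 424 := fun e => hne (Or.inr (by rw [e]; simp))
    have h5 : n ≠ 425 := fun e => hne (Or.inr (by rw [e]; simp))
    have h6 : n ≠ 428 := fun e => hne (Or.inr (by rw [e]; simp))
    have h7 : n ≠ 432 := fun e => hne (Or.inr (by rw [e]; simp))
    rcases Nat.lt_or_ge 444 n with h8 | h8
    · exact not_mem_N_of_good (by norm_num) (good_large (M := 445) (t := 12) (a := 30) (b := 33)
        (c := 37) (by norm_num) (by norm_num) (by norm_num) h8 (by decide +kernel)) hn
    · clear h1 hne
      interval_cases n
      · exact not_mem_N_of_good (by norm_num)
          (good_of_posQ (n := 421) (t := 12) (a := 27) (b := 28) (c := 44) (by decide +kernel)) hn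
      · exact not_mem_N_of_good (by norm_num)
          (good_of_posQ (n := 422) (t := 12) (a := 23) (b := 32) (c := 44) (by decide +kernel)) hn
      · exact h3 rfl
      · exact h4 rfl
      · exact h5 rfl
      · exact not_mem_N_of_good (by norm_num)
          (good_of_posQ (n := 426) (t := 12) (a := 18) (b := 35) (c := 46) (by decide +kernel)) hn
      · exact not_mem_N_of_good (by norm_num)
          (good_of_posQ (n := 427) (t := 12) (a := 30) (b := 33) (c := 37) (by decide +kernel)) hn
      · exact h6 rfl
      · exact not_mem_N_of_good (by norm_num)
          (good_of_posQ (n := 429) (t := 12) (a := 16) (b := 31) (c := 51) (by decide +kernel)) hn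
      · exact not_mem_N_of_good (by norm_num)
          (good_of_posQ (n := 430) (t := 12) (a := 3) (b := 39) (c := 46) (by decide +kernel)) hn
      · exact not_mem_N_of_good (by norm_num)
          (good_of_posQ (n := 431) (t := 12) (a := 30) (b := 33) (c := 37) (by decide +kernel)) hn
      · exact h7 rfl
      · exact not_mem_N_of_good (by norm_num)
          (good_of_posQ (n := 433) (t := 12) (a := 30) (b := 34) (c := 37) (by decide +kernel)) hn
      · exact not_mem_N_of_good (by norm_num)
          (good_of_posQ (n := 434) (t := 12) (a := 30) (b := 33) (c := 37) (by decide +kernel)) hn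
      · exact not_mem_N_of_good (by norm_num)
          (good_of_posQ (n := 435) (t := 12) (a := 30) (b := 33) (c := 37) (by decide +kernel)) hn
      · exact not_mem_N_of_good (by norm_num)
          (good_of_posQ (n := 436) (t := 12) (a := 30) (b := 34) (c := 37) (by decide +kernel)) hn
      · exact not_mem_N_of_good (by norm_num)
          (good_of_posQ (n := 437) (t := 12) (a := 27) (b := 28) (c := 44) (by decide +kernel)) hn
      · exact not_mem_N_of_good (by norm_num)
          (good_of_posQ (n := 438) (t := 12) (a := 30) (b := 33) (c := 37) (by decide +kernel)) hn
      · exact not_mem_N_of_good (by norm_num)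
          (good_of_posQ (n := 439) (t := 12) (a := 30) (b := 33) (c := 37) (by decide +kernel)) hn
      · exact not_mem_N_of_good (by norm_num)
          (good_of_posQ (n := 440) (t := 12) (a := 30) (b := 34) (c := 37) (by decide +kernel)) hn
      · exact not_mem_N_of_good (by norm_num)
          (good_of_posQ (n := 441) (t := 12) (a := 30) (b := 33) (c := 37) (by decide +kernel)) hn
      · exact not_mem_N_of_good (by norm_num)
          (good_of_posQ (n := 442) (t := 12) (a := 30) (b := 33) (c := 37) (by decide +kernel)) hn
      · exact not_mem_N_of_good (by norm_num)
          (good_of_posQ (n := 443) (t := 12) (a := 30) (b := 33) (c := 37) (by decide +kernel)) hn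
      · exact not_mem_N_of_good (by norm_num)
          (good_of_posQ (n := 444) (t := 12) (a := 30) (b := 32) (c := 41) (by decide +kernel)) hn
  · have hlast : ∀ m : ℕ, 85 ≤ m → negN 12 m = true → m ∈ N 12 := fun m hm h =>
      mem_N_of_negN (k := 6) (by norm_num) (by omega) h
    rintro (⟨h1, h2⟩ | h)
    · rcases Nat.lt_or_ge n 367 with h3 | h3
      · refine mem_N_low (by norm_num) (by decide) h1 ?_
        have h4 : (n : ℝ) ≤ 366 := by exact_mod_cast (by omega : n ≤ 366)
        have := le_octDet
        norm_num
        linarith
      · refine hlast n h1 ?_
        interval_cases n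
        · exact tw_367
        · exact tw_368
        · exact tw_369
        · exact tw_370
        · exact tw_371
        · exact tw_372
        · exact tw_373
        · exact tw_374
        · exact tw_375
        · exact tw_376
        · exact tw_377
        · exact tw_378
        · exact tw_379
        · exact tw_380
        · exact tw_381
        · exact tw_382
        · exact tw_383
        · exact tw_384
        · exact tw_385
        · exact tw_386
        · exact tw_387
        · exact tw_388
        · exact tw_389
        · exact tw_390
        · exact tw_391
        · exact tw_392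
        · exact tw_393
        · exact tw_394
        · exact tw_395
        · exact tw_396
        · exact tw_397
        · exact tw_398
        · exact tw_399
        · exact tw_400
        · exact tw_401
        · exact tw_402
        · exact tw_403
        · exact tw_404
        · exact tw_405
        · exact tw_406
        · exact tw_407
        · exact tw_408
        · exact tw_409
        · exact tw_410
        · exact tw_411
        · exact tw_412
        · exact tw_413
        · exact tw_414
        · exact tw_415
        · exact tw_416
        · exact tw_417
        · exact tw_418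
        · exact tw_419
        · exact tw_420
    · simp only [Set.mem_insert_iff, Set.mem_singleton_iff] at h
      rcases h with rfl | rfl | rfl | rfl | rfl
      · exact hlast _ (by norm_num) tw_423
      · exact hlast _ (by norm_num) tw_424
      · exact hlast _ (by norm_num) tw_425
      · exact hlast _ (by norm_num) tw_428
      · exact hlast _ (by norm_num) tw_432

end Pool.Agent.TIndX
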