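import Pool.Agent.TInd.Triple

/-!
# Kernel checks for independent triples in cyclic groups

`negN t n = true` shows that `ℤ/n` has no `t`-independent triple; `posQ n t a b c = true` shows
that `{a, b, c}` is one.
-/

set_option autoImplicit false

namespace Pool.Agent.TIndX

open Pool.Agent.TInd

/-- `{a, b, c}` is `t`-independent modulo `n`, for integer representatives. -/
def Good (n t : ℕ) (a b c : ℤ) : Prop :=
  ∀ x y z : ℤ, |x| + |y| + |z| ≤ (t : ℤ) → (n : ℤ) ∣ a * x + b * y + c * z →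
    x = 0 ∧ y = 0 ∧ z = 0

theorem triple_iff_good {n t : ℕ} (hn : 1 ≤ n) (ht : 2 ≤ t) :
    (∃ A : Finset (ZMod n), A.card = 3 ∧ IsIndep t A) ↔ ∃ a b c : ℤ, Good n t a b c := by
  rw [triple_iff hn ht]
  constructor
  · rintro ⟨c, hc⟩
    refine ⟨c 0, c 1, c 2, fun x y z h1 h2 => ?_⟩
    by_contra hne
    have := hc ![x, y, z] (by
      intro h0
      apply hne
      have e0 := congrFun h0 0
      have e1 := congrFun h0 1
      have e2 := congrFun h0 2
      simp at e0 e1 e2
      exact ⟨e0, e1, e2⟩) (by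
      rw [Fin.sum_univ_three]
      simpa using h2)
    rw [Fin.sum_univ_three] at this
    simp at this
    linarith
  · rintro ⟨a, b, c, hg⟩
    refine ⟨![a, b, c], fun y hy hd => ?_⟩
    by_contra hlt
    push Not at hlt
    apply hy
    rw [Fin.sum_univ_three] at hlt hd
    simp only [Matrix.cons_val_zero, Matrix.cons_val_one, Matrix.cons_val] at hd
    obtain ⟨e0, e1, e2⟩ := hg (y 0) (y 1) (y 2) hlt hd
    funext i
    fin_cases i <;> simp [e0, e1, e2]

/-! ## Loops -/

/-- `f i = true` for all `i < k`. -/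
noncomputable def all (f : ℕ → Bool) (k : ℕ) : Bool :=
  Nat.rec (motive := fun _ => Bool) true
    (fun k ih => Bool.rec (motive := fun _ => Bool) false ih (f k)) k

theorem all_spec {f : ℕ → Bool} {k : ℕ} (h : all f k = true) : ∀ i < k, f i = true := by
  induction k with
  | zero => intro i hi; omega
  | succ k ih =>
    intro i hi
    have h' : Bool.rec (motive := fun _ => Bool) false (all f k) (f k) = true := h
    have h2 : f k = true ∧ all f k = true := by
      cases hf : f k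
      · rw [hf] at h'; exact absurd (show false = true from h') Bool.false_ne_true
      · rw [hf] at h'; exact ⟨rfl, h'⟩
    rcases Nat.lt_succ_iff_lt_or_eq.1 hi with h1 | rfl
    · exact ih h2.2 i h1
    · exact h2.1

/-- `a || b` by the recursor. -/
noncomputable def or' (a b : Bool) : Bool := Bool.rec (motive := fun _ => Bool) b true a

theorem or'_iff {a b : Bool} : or' a b = true ↔ a = true ∨ b = true := by
  cases a <;> cases b <;> simp [or']

/-- Bit `v` of `m`. -/
def bit (m v : ℕ) : Bool := Nat.beq (Nat.mod (Nat.shiftRight m v) 2) 1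

theorem bit_eq (m v : ℕ) : bit m v = m.testBit v := by
  change Nat.beq ((m >>> v) % 2) 1 = _
  rw [Nat.testBit_eq_decide_div_mod_eq, Nat.shiftRight_eq_div_pow]
  rcases Nat.mod_two_eq_zero_or_one (m / 2 ^ v) with h | h <;> rw [h] <;> rfl

/-- Cyclic shift of the bit mask `S` by `a` modulo `n`. -/
def rot (n S a : ℕ) : ℕ :=
  Nat.mod (Nat.lor (Nat.shiftLeft S a) (Nat.shiftRight S (Nat.sub n a))) (Nat.pow 2 n)

theorem rot_bit {n S a x : ℕ} (ha : a ≤ n) (h : (rot n S a).testBit x = true) :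
    ∃ x' : ℕ, S.testBit x' = true ∧ (n : ℤ) ∣ (x' : ℤ) + a - x := by
  change (((S <<< a) ||| (S >>> (n - a))) % 2 ^ n).testBit x = true at h
  rw [Nat.testBit_mod_two_pow, Nat.testBit_or, Nat.testBit_shiftLeft, Nat.testBit_shiftRight] at h
  simp only [Bool.and_eq_true, Bool.or_eq_true, decide_eq_true_eq] at h
  obtain ⟨hx, h | h⟩ := h
  · refine ⟨x - a, h.2, ?_⟩
    have h1 : a ≤ x := h.1
    rw [Nat.cast_sub h1]
    exact ⟨0, by ring⟩
  · refine ⟨n - a + x, h, ?_⟩
    push_cast [Nat.cast_sub ha]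
    exact ⟨1, by ring⟩

/-- One more summand. -/
def step (n a b S : ℕ) : ℕ :=
  Nat.lor S (Nat.lor (Nat.lor (rot n S a) (rot n S (Nat.sub n a)))
    (Nat.lor (rot n S b) (rot n S (Nat.sub n b))))

/-- `v` is a signed sum of `a` and `b` of length at most `k` modulo `n`. -/
def Rep (n a b k v : ℕ) : Prop :=
  ∃ x y : ℤ, |x| + |y| ≤ (k : ℤ) ∧ (n : ℤ) ∣ (v : ℤ) - ((a : ℤ) * x + (b : ℤ) * y)

theorem step_spec {n a b S k : ℕ} (ha : a ≤ n) (hb : b ≤ n)
    (h : ∀ v, S.testBit v = true → Rep n a b k v) :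
    ∀ v, (step n a b S).testBit v = true → Rep n a b (k + 1) v := by
  intro v hv
  change (S ||| ((rot n S a ||| rot n S (n - a)) ||| (rot n S b ||| rot n S (n - b)))).testBit v
    = true at hv
  simp only [Nat.testBit_or, Bool.or_eq_true] at hv
  have key : ∀ (w : ℕ) (i0 j0 : ℤ), |i0| + |j0| ≤ 1 → w ≤ n →
      ((n : ℤ) ∣ (w : ℤ) - (a * i0 + b * j0)) → (rot n S w).testBit v = true →
      Rep n a b (k + 1) v := by
    intro w i0 j0 h0 hw hd hr
    obtain ⟨x', h1, h2⟩ := rot_bit hw hr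
    obtain ⟨i, j, h3, h4⟩ := h x' h1
    refine ⟨i + i0, j + j0, ?_, ?_⟩
    · have e1 := abs_add_le i i0
      have e2 := abs_add_le j j0
      push_cast
      linarith
    · obtain ⟨p, hp⟩ := h2
      obtain ⟨q, hq⟩ := h4
      obtain ⟨r, hr⟩ := hd
      exact ⟨r + q - p, by linear_combination hr + hq - hp⟩
  rcases hv with hv | (hv | hv) | (hv | hv)
  · obtain ⟨i, j, h1, h2⟩ := h v hv
    exact ⟨i, j, by push_cast; linarith, h2⟩
  · exact key a 1 0 (by norm_num) ha ⟨0, by ring⟩ hv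
  · exact key (n - a) (-1) 0 (by norm_num) (by omega) ⟨1, by rw [Nat.cast_sub ha]; ring⟩ hv
  · exact key b 0 1 (by norm_num) hb ⟨0, by ring⟩ hv
  · exact key (n - b) 0 (-1) (by norm_num) (by omega) ⟨1, by rw [Nat.cast_sub hb]; ring⟩ hv

/-- Evaluates `m` before it is used. -/
noncomputable def force (m : ℕ) (f : ℕ → Bool) : Bool :=
  Nat.rec (motive := fun _ => Bool) (f 0) (fun k _ => f (Nat.succ k)) m

theorem force_eq (m : ℕ) (f : ℕ → Bool) : force m f = f m := by
  cases m <;> rfl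

/-- Is `j c` in the mask number `j` of the list, for some `j`? -/
noncomputable def hit (n c : ℕ) (L : List ℕ) : ℕ → Bool :=
  List.rec (motive := fun _ => ℕ → Bool) (fun _ => false)
    (fun m _ ih j => or' (bit m (Nat.mod (Nat.mul j c) n)) (ih (Nat.succ j))) L

/-- Soundness of a list of masks. -/
def Snd (n a b : ℕ) : List ℕ → Prop
  | [] => True
  | m :: ms => (∀ v, m.testBit v = true → Rep n a b ms.length v) ∧ Snd n a b ms

theorem hit_spec {n a b c t : ℕ} : ∀ {ms : List ℕ} {j : ℕ}, 1 ≤ j → Snd n a b ms →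
    j + ms.length = t + 1 → hit n c ms j = true →
    ∃ (i : ℕ) (x y : ℤ), 1 ≤ i ∧ |x| + |y| + i ≤ (t : ℤ) ∧
      (n : ℤ) ∣ (i : ℤ) * c - ((a : ℤ) * x + (b : ℤ) * y)
  | [], j, _, _, _, h => by exact absurd h (by simp [hit])
  | m :: ms, j, hj, hs, hl, h => by
    have h' : or' (bit m ((j * c) % n)) (hit n c ms (j + 1)) = true := h
    rw [or'_iff] at h'
    rcases h' with h | h
    · rw [bit_eq] at h
      obtain ⟨x, y, hxy, hd⟩ := hs.1 _ h
      rw [List.length_cons] at hl
      have h2 : (n : ℤ) ∣ ((j * c : ℕ) : ℤ) - (((j * c) % n : ℕ) : ℤ) := by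
        rw [Int.natCast_mod]
        have := Int.emod_add_mul_ediv ((j * c : ℕ) : ℤ) n
        exact ⟨((j * c : ℕ) : ℤ) / n, by linarith⟩
      obtain ⟨p, hp⟩ := h2
      obtain ⟨q, hq⟩ := hd
      have e : ((j * c : ℕ) : ℤ) = (j : ℤ) * c := Nat.cast_mul _ _
      rw [e] at hp
      refine ⟨j, x, y, hj, ?_, ⟨p + q, by linear_combination hp + hq⟩⟩
      have : ((ms.length : ℕ) : ℤ) + j = t := by exact_mod_cast (by omega : ms.length + j = t)
      linarith
    · exact hit_spec (by omega) hs.2 (by rw [List.length_cons] at hl; omega) h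

/-- Builds the masks, then applies `F`. -/
noncomputable def chain (n a b : ℕ) (F : List ℕ → Bool) (k : ℕ) : ℕ → List ℕ → Bool :=
  Nat.rec (motive := fun _ => ℕ → List ℕ → Bool) (fun _ ms => F ms)
    (fun _ ih cur ms => force (step n a b cur) (fun m => ih m (m :: ms))) k

theorem chain_spec {n a b : ℕ} {F : List ℕ → Bool} (ha : a ≤ n) (hb : b ≤ n) :
    ∀ {k cur : ℕ} {ms : List ℕ}, Snd n a b (cur :: ms) →
      chain n a b F k cur (cur :: ms) = true →
      ∃ L : List ℕ, Snd n a b L ∧ L.length = k + (ms.length + 1) ∧ F L = true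
  | 0, cur, ms, hs, h => ⟨cur :: ms, hs, by simp, h⟩
  | k + 1, cur, ms, hs, h => by
    have h' : force (step n a b cur) (fun m => chain n a b F k m (m :: cur :: ms)) = true := h
    rw [force_eq] at h'
    obtain ⟨L, h1, h2, h3⟩ := chain_spec ha hb (k := k) (cur := step n a b cur) (ms := cur :: ms)
      (show Snd n a b (step n a b cur :: cur :: ms) from ⟨by
        rw [List.length_cons]
        exact step_spec ha hb hs.1, hs⟩) h'
    exact ⟨L, h1, by rw [h2, List.length_cons]; omega, h3⟩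

theorem snd_one (n a b : ℕ) : Snd n a b [1] := by
  refine ⟨fun v hv => ?_, trivial⟩
  have hv0 : v = 0 := by
    by_contra hne
    rw [Nat.testBit_one_eq_true_iff_self_eq_zero] at hv
    exact hne hv
  subst hv0
  exact ⟨0, 0, by simp, ⟨0, by simp⟩⟩

/-- All `c` with `b ≤ c ≤ n / 2` and `gcd(c, n) ≥ d`. -/
noncomputable def cLoop (n d b : ℕ) (L : List ℕ) : Bool :=
  all (fun i => or' (Nat.blt (Nat.gcd (Nat.add b i) n) d) (hit n (Nat.add b i) L 1))
    (Nat.sub (Nat.succ (Nat.div n 2)) b)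

/-- All `b ≤ n / 2` with `gcd(b, n) ≥ d`. -/
noncomputable def bLoop (n t d : ℕ) (L : List ℕ) : Bool :=
  all (fun b => or' (Nat.blt (Nat.gcd b n) d) (or' (hit n b L 1)
    (chain n d b (cLoop n d b) (Nat.pred t) 1 [1]))) (Nat.succ (Nat.div n 2))

/-- No triple with `a = d` a divisor of `n` and `b`, `c` with `gcd ≥ d` is independent. -/
noncomputable def negN (t n : ℕ) : Bool :=
  all (fun d => or' (Nat.blt 0 (Nat.mod n (Nat.succ d)))
    (or' (Nat.ble n (Nat.mul t (Nat.succ d)))
      (chain n (Nat.succ d) 0 (bLoop n t (Nat.succ d)) (Nat.pred t) 1 [1]))) n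

theorem good_congr {n t : ℕ} {a b c a' b' c' : ℤ} (ha : (n : ℤ) ∣ a - a') (hb : (n : ℤ) ∣ b - b')
    (hc : (n : ℤ) ∣ c - c') (h : Good n t a b c) : Good n t a' b' c' := by
  intro x y z hx hd
  refine h x y z hx ?_
  obtain ⟨p, hp⟩ := ha
  obtain ⟨q, hq⟩ := hb
  obtain ⟨r, hr⟩ := hc
  obtain ⟨s, hs⟩ := hd
  exact ⟨s + p * x + q * y + r * z, by linear_combination hs + x * hp + y * hq + z * hr⟩

theorem good_swap {n t : ℕ} {a b c : ℤ} (h : Good n t a b c) : Good n t a c b := by
  intro x y z hx hd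
  have := h x z y (by linarith) (by
    have e : a * x + b * z + c * y = a * x + c * y + b * z := by ring
    rw [e]; exact hd)
  exact ⟨this.1, this.2.2, this.2.1⟩

theorem good_rot {n t : ℕ} {a b c : ℤ} (h : Good n t a b c) : Good n t b a c := by
  intro x y z hx hd
  have := h y x z (by linarith) (by
    have e : a * y + b * x + c * z = b * x + a * y + c * z := by ring
    rw [e]; exact hd)
  exact ⟨this.2.1, this.1, this.2.2⟩

theorem good_sign {n t : ℕ} {a b c s r : ℤ} (hs : s = 1 ∨ s = -1) (hr : r = 1 ∨ r = -1)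
    (h : Good n t a b c) : Good n t a (s * b) (r * c) := by
  intro x y z hx hd
  have e1 : |s * y| = |y| := by rcases hs with rfl | rfl <;> simp
  have e2 : |r * z| = |z| := by rcases hr with rfl | rfl <;> simp
  have := h x (s * y) (r * z) (by rw [e1, e2]; exact hx) (by
    have e : a * x + b * (s * y) + c * (r * z) = a * x + s * b * y + r * c * z := by ring
    rw [e]; exact hd)
  refine ⟨this.1, ?_, ?_⟩
  · have := this.2.1
    rcases hs with rfl | rfl
    · simpa using this
    · simpa using this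
  · have := this.2.2
    rcases hr with rfl | rfl
    · simpa using this
    · simpa using this

theorem exists_half {n : ℕ} (hn : 1 ≤ n) (b : ℤ) :
    ∃ (b' : ℕ) (s : ℤ), b' ≤ n / 2 ∧ (s = 1 ∨ s = -1) ∧ (n : ℤ) ∣ s * b - b' := by
  have : NeZero n := ⟨by omega⟩
  have h1 : (((b : ZMod n).valMinAbs : ℤ) : ZMod n) = (b : ZMod n) := ZMod.coe_valMinAbs _
  rcases Int.natAbs_eq ((b : ZMod n).valMinAbs) with h2 | h2
  · refine ⟨((b : ZMod n).valMinAbs).natAbs, 1, ZMod.natAbs_valMinAbs_le _, Or.inl rfl, ?_⟩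
    rw [← CharP.intCast_eq_zero_iff (ZMod n) n, ← h2]
    push_cast
    simp
  · refine ⟨((b : ZMod n).valMinAbs).natAbs, -1, ZMod.natAbs_valMinAbs_le _, Or.inr rfl, ?_⟩
    rw [← CharP.intCast_eq_zero_iff (ZMod n) n]
    have h3 : (((b : ZMod n).valMinAbs.natAbs : ℕ) : ℤ) = -((b : ZMod n).valMinAbs) := by omega
    rw [h3]
    push_cast
    simp

theorem gcd_le_of {n : ℕ} (hn : 1 ≤ n) {x y s : ℤ} (h : (n : ℤ) ∣ s * y - x) :
    Int.gcd y n ≤ Int.gcd x n := by
  have h1 : ((Int.gcd y n : ℕ) : ℤ) ∣ y := Int.gcd_dvd_left ..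
  have h2 : ((Int.gcd y n : ℕ) : ℤ) ∣ (n : ℤ) := Int.gcd_dvd_right ..
  have h3 : ((Int.gcd y n : ℕ) : ℤ) ∣ x := by
    have := dvd_sub (h1.mul_left s) (h2.trans h)
    simpa using this
  have h4 : Int.gcd y n ∣ Int.gcd x n := Int.dvd_gcd h3 h2
  exact Nat.le_of_dvd (Int.gcd_pos_of_ne_zero_right _ (by exact_mod_cast (by omega : n ≠ 0))) h4

theorem core {t n : ℕ} (hn : 1 ≤ n) (ht : 1 ≤ t) (h : negN t n = true) {d b c : ℕ} (hd : d ∣ n)
    (hb : b ≤ c) (hc : c ≤ n / 2) (hdb : d ≤ Nat.gcd b n) (hdc : d ≤ Nat.gcd c n) :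
    ¬ Good n t d b c := by
  intro hg
  have hd0 : 1 ≤ d := Nat.pos_of_dvd_of_pos hd (by omega)
  have hdn : d ≤ n := Nat.le_of_dvd (by omega) hd
  have h5 := all_spec h (d - 1) (by omega)
  have e : Nat.succ (d - 1) = d := by omega
  rw [e, or'_iff, or'_iff] at h5
  rcases h5 with h5 | h5 | h5
  · have : n.mod d = 0 := Nat.mod_eq_zero_of_dvd hd
    rw [this] at h5
    exact absurd h5 (by decide)
  · obtain ⟨m, hm⟩ := hd
    have h6 : n ≤ t * d := Nat.le_of_ble_eq_true h5
    have hmt : m ≤ t := by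
      rw [hm, mul_comm t d] at h6
      exact Nat.le_of_mul_le_mul_left h6 (by omega)
    have hm0 : m ≠ 0 := by
      rintro rfl
      omega
    have := (hg m 0 0 (by
      rw [abs_zero, Nat.abs_cast]
      omega) ⟨1, by rw [hm]; push_cast; ring⟩).1
    exact hm0 (by exact_mod_cast this)
  · obtain ⟨L, hL, hLl, hF⟩ := chain_spec (ms := []) hdn (Nat.zero_le n) (snd_one n d 0) h5
    have hLt : 1 + L.length = t + 1 := by
      rw [hLl, List.length_nil]
      have : t.pred = t - 1 := rfl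
      omega
    have hbn : b ≤ n / 2 := hb.trans hc
    have h6 := all_spec hF b (by change b < n / 2 + 1; omega)
    rw [or'_iff, or'_iff] at h6
    rcases h6 with h6 | h6 | h6
    · have : Nat.gcd b n < d := by
        have := Nat.le_of_ble_eq_true h6
        omega
      omega
    · obtain ⟨i, x, y, hi, hxy, hdv⟩ := hit_spec (le_refl 1) hL hLt h6
      have h7 := hg x (-(i : ℤ)) 0 (by
        rw [abs_neg, Nat.abs_cast, abs_zero]
        have := abs_nonneg y
        linarith) (by
        obtain ⟨p, hp⟩ := hdv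
        exact ⟨-p, by push_cast at hp; linear_combination -hp⟩)
      have := h7.2.1
      omega
    · obtain ⟨L', hL', hLl', hF'⟩ := chain_spec (ms := []) hdn (by omega) (snd_one n d b) h6
      have hLt' : 1 + L'.length = t + 1 := by
        rw [hLl', List.length_nil]
        have : t.pred = t - 1 := rfl
        omega
      have h8 := all_spec hF' (c - b) (by change c - b < n / 2 + 1 - b; omega)
      have e2 : Nat.add b (c - b) = c := by change b + (c - b) = c; omega
      rw [e2, or'_iff] at h8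
      rcases h8 with h8 | h8
      · have : Nat.gcd c n < d := by
          have := Nat.le_of_ble_eq_true h8
          omega
        omega
      · obtain ⟨i, x, y, hi, hxy, hdv⟩ := hit_spec (le_refl 1) hL' hLt' h8
        have h7 := hg x y (-(i : ℤ)) (by
          rw [abs_neg, Nat.abs_cast]
          linarith) (by
          obtain ⟨p, hp⟩ := hdv
          exact ⟨-p, by linear_combination -hp⟩)
        have := h7.2.2
        omega

theorem not_good_min {t n : ℕ} (hn : 1 ≤ n) (ht : 1 ≤ t) (h : negN t n = true) {a b c : ℤ}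
    (hab : Int.gcd a n ≤ Int.gcd b n) (hac : Int.gcd a n ≤ Int.gcd c n) : ¬ Good n t a b c := by
  intro hg
  have : NeZero n := ⟨by omega⟩
  obtain ⟨d, hd, u, hu, hau⟩ := ZMod.eq_unit_mul_divisor (a : ZMod n)
  obtain ⟨w, hw⟩ := hu.exists_left_inv
  set W : ℤ := ((w.val : ℕ) : ℤ) with hW
  set U : ℤ := ((u.val : ℕ) : ℤ) with hU
  have hwc : ((W : ℤ) : ZMod n) = w := by
    rw [hW]; push_cast; simp
  have huc : ((U : ℤ) : ZMod n) = u := by
    rw [hU]; push_cast; simp
  have hUW : (n : ℤ) ∣ U * W - 1 := by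
    rw [← CharP.intCast_eq_zero_iff (ZMod n) n]
    push_cast
    rw [hwc, huc, mul_comm u w, hw, sub_self]
  have h1 : Good n t (W * a) (W * b) (W * c) := by
    intro x y z hx hd'
    refine hg x y z hx ?_
    obtain ⟨p, hp⟩ := hUW
    obtain ⟨q, hq⟩ := hd'
    exact ⟨U * q - p * (a * x + b * y + c * z), by
      linear_combination U * hq - (a * x + b * y + c * z) * hp⟩
  have h2 : (n : ℤ) ∣ W * a - (d : ℤ) := by
    rw [← CharP.intCast_eq_zero_iff (ZMod n) n]
    push_cast
    rw [hwc, hau, ← mul_assoc, hw, one_mul, sub_self]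
  have hgd : Nat.gcd d n = d := Nat.gcd_eq_left hd
  have hda : d ≤ Int.gcd a n := by
    have h3 : Int.gcd (d : ℤ) n ≤ Int.gcd a n := by
      refine gcd_le_of hn (s := U) ?_
      obtain ⟨p, hp⟩ := hUW
      obtain ⟨q, hq⟩ := h2
      exact ⟨p * a - U * q, by linear_combination a * hp - U * hq⟩
    rw [Int.gcd_natCast_natCast, hgd] at h3
    exact h3
  have key : ∀ b : ℤ, Int.gcd a n ≤ Int.gcd b n →
      ∃ (b' : ℕ) (s : ℤ), b' ≤ n / 2 ∧ (s = 1 ∨ s = -1) ∧ (n : ℤ) ∣ s * (W * b) - b' ∧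
        d ≤ Nat.gcd b' n := by
    intro b hab
    obtain ⟨b', s, hb', hs, hbd⟩ := exists_half hn (W * b)
    refine ⟨b', s, hb', hs, hbd, ?_⟩
    have h3 : Int.gcd b n ≤ Int.gcd (b' : ℤ) n := gcd_le_of hn (s := s * W) (by
      rw [mul_assoc]; exact hbd)
    rw [Int.gcd_natCast_natCast] at h3
    exact hda.trans (hab.trans h3)
  obtain ⟨b', s, hb', hs, hbd, hgb⟩ := key b hab
  obtain ⟨c', r, hc', hr, hcd, hgc⟩ := key c hac
  have h3 : Good n t (d : ℤ) (b' : ℤ) (c' : ℤ) :=
    good_congr h2 hbd hcd (good_sign hs hr h1)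
  rcases le_total b' c' with hbc | hbc
  · exact core hn ht h hd hbc hc' hgb hgc h3
  · exact core hn ht h hd hbc hb' hgc hgb (good_swap h3)

theorem not_good_of_negN {t n : ℕ} (hn : 1 ≤ n) (ht : 1 ≤ t) (h : negN t n = true) (a b c : ℤ) :
    ¬ Good n t a b c := by
  intro hg
  rcases le_total (Int.gcd a n) (Int.gcd b n) with h1 | h1
  · rcases le_total (Int.gcd a n) (Int.gcd c n) with h2 | h2
    · exact not_good_min hn ht h h1 h2 hg
    · exact not_good_min hn ht h (h2.trans h1) h2 (good_rot (good_swap (good_rot hg)))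
  · rcases le_total (Int.gcd b n) (Int.gcd c n) with h2 | h2
    · exact not_good_min hn ht h h1 h2 (good_rot hg)
    · exact not_good_min hn ht h h2 (h2.trans h1) (good_rot (good_swap (good_rot hg)))

theorem no_triple_of_negN {t n : ℕ} (hn : 1 ≤ n) (ht : 2 ≤ t) (h : negN t n = true) :
    ¬ ∃ A : Finset (ZMod n), A.card = 3 ∧ IsIndep t A := by
  rw [triple_iff_good hn ht]
  rintro ⟨a, b, c, hg⟩
  exact not_good_of_negN hn (by omega) h a b c hg

end Pool.Agent.TIndX
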