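import Pool.Agent.TIndX.Chk

/-!
# Explicit independent triples
-/

set_option autoImplicit false

namespace Pool.Agent.TIndX

open Pool.Agent.TInd

/-- `a ≠ b`. -/
noncomputable def ne' (a b : ℕ) : Bool := Bool.rec (motive := fun _ => Bool) true false (Nat.beq a b)

theorem ne'_iff {a b : ℕ} : ne' a b = true ↔ a ≠ b := by
  unfold ne'
  cases h : Nat.beq a b
  · exact ⟨fun _ => Nat.ne_of_beq_eq_false h, fun _ => rfl⟩
  · exact ⟨fun h' => absurd (show false = true from h') Bool.false_ne_true,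
      fun h' => absurd (Nat.eq_of_beq_eq_true h) h'⟩

/-- `a && b` by the recursor. -/
noncomputable def and' (a b : Bool) : Bool := Bool.rec (motive := fun _ => Bool) false b a

theorem and'_iff {a b : Bool} : and' a b = true ↔ a = true ∧ b = true := by
  cases a <;> cases b <;> simp [and']

/-- No relation with coefficients `± i`, `± j`, `± k`. -/
noncomputable def rel (n A B C : ℕ) : Bool :=
  and' (ne' (Nat.mod (Nat.add (Nat.add A B) C) n) (Nat.mod 0 n))
    (and' (ne' (Nat.mod (Nat.add A B) n) (Nat.mod C n))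
      (and' (ne' (Nat.mod (Nat.add A C) n) (Nat.mod B n))
        (ne' (Nat.mod (Nat.add B C) n) (Nat.mod A n))))

/-- `{a, b, c}` is `t`-independent modulo `n`. -/
noncomputable def posQ (n t a b c : ℕ) : Bool :=
  all (fun i => all (fun j => all (fun k => or' (Nat.beq (Nat.add (Nat.add i j) k) 0)
    (rel n (Nat.mul a i) (Nat.mul b j) (Nat.mul c k))) (Nat.sub (Nat.succ t) (Nat.add i j)))
      (Nat.sub (Nat.succ t) i)) (Nat.succ t)

theorem good_of_posQ {n t a b c : ℕ} (h : posQ n t a b c = true) : Good n t a b c := by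
  intro x y z hx hd
  by_contra hne
  obtain ⟨i, hi⟩ : ∃ i : ℕ, x = i ∨ x = -(i : ℤ) := ⟨x.natAbs, Int.natAbs_eq x⟩
  obtain ⟨j, hj⟩ : ∃ i : ℕ, y = i ∨ y = -(i : ℤ) := ⟨y.natAbs, Int.natAbs_eq y⟩
  obtain ⟨k, hk⟩ : ∃ i : ℕ, z = i ∨ z = -(i : ℤ) := ⟨z.natAbs, Int.natAbs_eq z⟩
  have ei : |x| = (i : ℤ) := by rcases hi with rfl | rfl <;> simp
  have ej : |y| = (j : ℤ) := by rcases hj with rfl | rfl <;> simp
  have ek : |z| = (k : ℤ) := by rcases hk with rfl | rfl <;> simp
  rw [ei, ej, ek] at hx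
  have h0 : i + j + k ≠ 0 := by
    intro h0
    apply hne
    have : i = 0 := by omega
    have : j = 0 := by omega
    have : k = 0 := by omega
    subst_vars
    refine ⟨?_, ?_, ?_⟩
    · rcases hi with h | h <;> simpa using h
    · rcases hj with h | h <;> simpa using h
    · rcases hk with h | h <;> simpa using h
  have h1 := all_spec (all_spec (all_spec h i (by change i < t + 1; omega)) j
    (by change j < t + 1 - i; omega)) k (by change k < t + 1 - (i + j); omega)
  rw [or'_iff] at h1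
  rcases h1 with h1 | h1
  · exact h0 (Nat.eq_of_beq_eq_true h1)
  · unfold rel at h1
    rw [and'_iff, and'_iff, and'_iff, ne'_iff, ne'_iff, ne'_iff, ne'_iff] at h1
    obtain ⟨g1, g2, g3, g4⟩ := h1
    have f1 : ¬ (n : ℤ) ∣ a * i + b * j + c * k := by
      intro hh
      apply g1
      refine (Nat.modEq_iff_dvd.2 ?_ : (a * i + b * j + c * k) ≡ 0 [MOD n])
      push_cast
      obtain ⟨p, hp⟩ := hh
      exact ⟨-p, by linear_combination -hp⟩
    have f2 : ¬ (n : ℤ) ∣ a * i + b * j - c * k := by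
      intro hh
      apply g2
      refine (Nat.modEq_iff_dvd.2 ?_ : (a * i + b * j) ≡ c * k [MOD n])
      push_cast
      obtain ⟨p, hp⟩ := hh
      exact ⟨-p, by linear_combination -hp⟩
    have f3 : ¬ (n : ℤ) ∣ a * i - b * j + c * k := by
      intro hh
      apply g3
      refine (Nat.modEq_iff_dvd.2 ?_ : (a * i + c * k) ≡ b * j [MOD n])
      push_cast
      obtain ⟨p, hp⟩ := hh
      exact ⟨-p, by linear_combination -hp⟩
    have f4 : ¬ (n : ℤ) ∣ -(a * i) + b * j + c * k := by
      intro hh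
      apply g4
      refine (Nat.modEq_iff_dvd.2 ?_ : (b * j + c * k) ≡ a * i [MOD n])
      push_cast
      obtain ⟨p, hp⟩ := hh
      exact ⟨-p, by linear_combination -hp⟩
    obtain ⟨p, hp⟩ := hd
    rcases hi with rfl | rfl <;> rcases hj with rfl | rfl <;> rcases hk with rfl | rfl
    · exact f1 ⟨p, by linear_combination hp⟩
    · exact f2 ⟨p, by linear_combination hp⟩
    · exact f3 ⟨p, by linear_combination hp⟩
    · exact f4 ⟨-p, by linear_combination -hp⟩
    · exact f4 ⟨p, by linear_combination hp⟩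
    · exact f3 ⟨-p, by linear_combination -hp⟩
    · exact f2 ⟨-p, by linear_combination -hp⟩
    · exact f1 ⟨-p, by linear_combination -hp⟩

/-- A triple independent modulo `M > t c` is independent modulo all `n ≥ M`. -/
theorem good_large {M t a b c n : ℕ} (hab : a ≤ c) (hbc : b ≤ c) (hM : t * c < M) (hn : M ≤ n)
    (h : posQ M t a b c = true) : Good n t a b c := by
  intro x y z hx hd
  have h1 : |(a : ℤ) * x + b * y + c * z| ≤ t * c := by
    have e1 : |(a : ℤ) * x + b * y + c * z| ≤ |(a : ℤ) * x| + |(b : ℤ) * y| + |(c : ℤ) * z| :=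
      abs_add_three _ _ _
    rw [abs_mul, abs_mul, abs_mul, Nat.abs_cast, Nat.abs_cast, Nat.abs_cast] at e1
    have ha : (a : ℤ) ≤ c := by exact_mod_cast hab
    have hb : (b : ℤ) ≤ c := by exact_mod_cast hbc
    have e2 : (a : ℤ) * |x| ≤ c * |x| := mul_le_mul_of_nonneg_right ha (abs_nonneg _)
    have e3 : (b : ℤ) * |y| ≤ c * |y| := mul_le_mul_of_nonneg_right hb (abs_nonneg _)
    have e4 : (|x| + |y| + |z|) * c ≤ t * c := mul_le_mul_of_nonneg_right hx (Nat.cast_nonneg _)
    linarith
  have h2 : (a : ℤ) * x + b * y + c * z = 0 := by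
    apply Int.eq_zero_of_abs_lt_dvd hd
    have : (t : ℤ) * c < n := by exact_mod_cast hM.trans_le hn
    linarith
  exact good_of_posQ h x y z hx (by rw [h2]; exact dvd_zero _)

/-- The values of `N t` from the checks. -/
theorem mem_N_of_negN {n k : ℕ} (hk : 1 ≤ k) (hn : 2 * k ^ 2 + 2 * k + 1 ≤ n)
    (h : negN (2 * k) n = true) : n ∈ N (2 * k) := by
  rw [mem_N_iff]
  exact ⟨by omega, pair_indep hk hn, no_triple_of_negN (by omega) (by omega) h⟩

theorem not_mem_N_of_good {n t : ℕ} (ht : 2 ≤ t) {a b c : ℤ} (h : Good n t a b c) :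
    n ∉ N t := by
  intro hn
  rw [mem_N_iff] at hn
  exact hn.2.2 ((triple_iff_good hn.1 ht).2 ⟨a, b, c, h⟩)

end Pool.Agent.TIndX
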